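import Mathlib

/-!
# MP_305fdd_al: the rank of the abelianisation and characters of prime order
-/

set_option autoImplicit false
set_option linter.unusedSectionVars false

namespace Pool.Agent.SuFI

/-- homomorphisms to `Multiplicative P` are homomorphisms of the abelianisation -/
def homAb (A P : Type) [Group A] [AddCommGroup P] :
    (A →* Multiplicative P) ≃ (Additive (Abelianization A) →+ P) :=
  (Abelianization.lift (G := A) (A := Multiplicative P)).trans
    { toFun := fun f => AddMonoidHom.mk' (fun x => (f x.toMul).toAdd) (fun x y => by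
        change (f (x.toMul * y.toMul)).toAdd = _
        rw [map_mul]
        rfl)
      invFun := fun f => MonoidHom.mk' (fun x => Multiplicative.ofAdd (f (Additive.ofMul x)))
        (fun x y => by
          change Multiplicative.ofAdd (f (Additive.ofMul x + Additive.ofMul y)) = _
          rw [map_add]
          rfl)
      left_inv := fun _ => rfl
      right_inv := fun _ => rfl }

/-- homomorphisms from an abelian group `≃ ℤ ^ n × T` -/
noncomputable def homProd {M T P : Type} [AddCommGroup M] [AddCommGroup T] [AddCommGroup P] {n : ℕ}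
    (E : M ≃+ (Fin n →₀ ℤ) × T) : (M →+ P) ≃ (Fin n → P) × (T →+ P) where
  toFun f := (fun i => f (E.symm (Finsupp.single i 1, 0)),
    (f.comp E.symm.toAddMonoidHom).comp (AddMonoidHom.inr _ _))
  invFun y := ((Finsupp.liftAddHom (fun i => (zmultiplesHom P) (y.1 i))).coprod y.2).comp
    E.toAddMonoidHom
  left_inv f := by
    have h1 : ((Finsupp.liftAddHom (fun i => (zmultiplesHom P)
        (f (E.symm (Finsupp.single i 1, 0))))).coprod
        ((f.comp E.symm.toAddMonoidHom).comp (AddMonoidHom.inr _ _))) =
        f.comp E.symm.toAddMonoidHom := by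
      apply AddMonoidHom.ext
      rintro ⟨a, t⟩
      have h2 : ((a, t) : (Fin n →₀ ℤ) × T) = (a, 0) + (0, t) := by simp
      rw [h2, map_add, map_add]
      congr 1
      · rw [AddMonoidHom.coprod_apply, map_zero, add_zero]
        have h3 : Finsupp.liftAddHom (fun i => (zmultiplesHom P)
            (f (E.symm (Finsupp.single i 1, 0)))) =
            (f.comp E.symm.toAddMonoidHom).comp (AddMonoidHom.inl _ _) := by
          apply Finsupp.addHom_ext
          intro i m
          rw [Finsupp.liftAddHom_apply_single, zmultiplesHom_apply]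
          change m • f (E.symm (Finsupp.single i 1, 0)) = f (E.symm (Finsupp.single i m, 0))
          rw [← map_zsmul f, ← map_zsmul E.symm]
          congr 2
          rw [Prod.smul_mk, smul_zero, Finsupp.smul_single, smul_eq_mul, mul_one]
        exact DFunLike.congr_fun h3 a
      · rw [AddMonoidHom.coprod_apply, map_zero, zero_add]
        rfl
    apply AddMonoidHom.ext
    intro x
    have h4 := DFunLike.congr_fun h1 (E x)
    change _ = f (E.symm (E x)) at h4
    rw [E.symm_apply_apply] at h4
    exact h4
  right_inv y := by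
    refine Prod.ext ?_ ?_
    · funext i
      change ((Finsupp.liftAddHom (fun i => (zmultiplesHom P) (y.1 i))).coprod y.2)
        (E (E.symm (Finsupp.single i 1, 0))) = y.1 i
      rw [E.apply_symm_apply, AddMonoidHom.coprod_apply, map_zero, add_zero,
        Finsupp.liftAddHom_apply_single, zmultiplesHom_apply, one_smul]
    · apply AddMonoidHom.ext
      intro t
      change ((Finsupp.liftAddHom (fun i => (zmultiplesHom P) (y.1 i))).coprod y.2)
        (E (E.symm (0, t))) = y.2 t
      rw [E.apply_symm_apply, AddMonoidHom.coprod_apply, map_zero, zero_add]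

/-- THE RANK of a finitely generated group: the numbers of characters of prime order. -/
theorem rank_ab (A : Type) [Group A] [Group.FG A] : ∃ n N : ℕ, N ≠ 0 ∧
    (∀ ℓ : ℕ, ℓ.Prime → ¬ ℓ ∣ N → Nat.card (A →* Multiplicative (ZMod ℓ)) = ℓ ^ n) ∧
    ∀ ℓ : ℕ, ℓ.Prime → ℓ ^ n ≤ Nat.card (A →* Multiplicative (ZMod ℓ)) := by
  have hsurj : Function.Surjective (Abelianization.of : A →* Abelianization A) :=
    QuotientGroup.mk'_surjective _
  have hfg : AddGroup.FG (Additive (Abelianization A)) := by
    have : Group.FG (Abelianization A) := Group.fg_of_surjective hsurj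
    exact GroupFG.iff_add_fg.1 this
  obtain ⟨n, ι, _, p, hp, e, ⟨E⟩⟩ := AddCommGroup.equiv_free_prod_directSum_zmod
    (Additive (Abelianization A))
  have hfT : Finite (DirectSum ι fun i => ZMod (p i ^ e i)) := by
    have : ∀ i, NeZero (p i ^ e i) := fun i => ⟨pow_ne_zero _ (hp i).ne_zero⟩
    exact Finite.of_equiv _ (DirectSum.addEquivProd fun i => ZMod (p i ^ e i)).symm.toEquiv
  set T := DirectSum ι fun i => ZMod (p i ^ e i)
  have hcard : ∀ ℓ : ℕ, ℓ.Prime → Nat.card (A →* Multiplicative (ZMod ℓ)) =
      ℓ ^ n * Nat.card (T →+ ZMod ℓ) := by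
    intro ℓ hℓ
    rw [Nat.card_congr (homAb A (ZMod ℓ)), Nat.card_congr (homProd E), Nat.card_prod,
      Nat.card_fun, Nat.card_zmod, Nat.card_fin]
  have hfin : ∀ ℓ : ℕ, ℓ.Prime → Finite (T →+ ZMod ℓ) := by
    intro ℓ hℓ
    have : NeZero ℓ := ⟨hℓ.ne_zero⟩
    exact Finite.of_injective (fun f : T →+ ZMod ℓ => (f : T → ZMod ℓ)) DFunLike.coe_injective
  refine ⟨n, Nat.card T, Nat.card_ne_zero.2 ⟨inferInstance, inferInstance⟩, ?_, ?_⟩
  · intro ℓ hℓ hN
    rw [hcard ℓ hℓ]
    have h1 : Subsingleton (T →+ ZMod ℓ) := by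
      constructor
      intro f f'
      have hz : ∀ f : T →+ ZMod ℓ, f = 0 := by
        intro f
        apply AddMonoidHom.ext
        intro t
        have h2 : (Nat.card T : ZMod ℓ) * f t = 0 := by
          rw [← nsmul_eq_mul, ← map_nsmul]
          have h3 : Nat.card T • t = 0 := by
            exact card_nsmul_eq_zero'
          rw [h3, map_zero]
        have : Fact ℓ.Prime := ⟨hℓ⟩
        rcases mul_eq_zero.1 h2 with h3 | h3
        · exact absurd ((ZMod.natCast_eq_zero_iff _ _).1 h3) hN
        · exact h3
      rw [hz f, hz f']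
    have h4 : Nat.card (T →+ ZMod ℓ) = 1 := Nat.card_unique
    rw [h4, mul_one]
  · intro ℓ hℓ
    rw [hcard ℓ hℓ]
    have := hfin ℓ hℓ
    exact Nat.le_mul_of_pos_right _ Nat.card_pos

end Pool.Agent.SuFI
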