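import Pool.Agent.Lib.MP_305fdd_al.Su.FI.Cnt
import Pool.Agent.Lib.MP_305fdd_al.Su.FI.Rank
import Pool.Agent.Lib.MP_305fdd_al.Fr.Top.Gr

/-!
# MP_305fdd_al, closed surface groups: no free decomposition

`Λ` has the finite quotients of the closed surface group of genus `g`, `π : Λ → Γ` is surjective and all
representations of `Λ` in `SL_2(κ)` (`κ` finite of characteristic two) factor through `π`, `ρ` is a
faithful representation of `Γ`, and the trivial representation is a point of the ring of `ρ`.  Then `Γ`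
has no free decomposition (as far as representations in `SL_2` are concerned).
-/

set_option autoImplicit false
set_option linter.unusedSectionVars false

namespace Pool.Agent.SuFI

open Matrix Pool.Agent.Lib.MP_305fdd_al Pool.Agent.MP_305fdd_al Pool.Agent.SurfCnt Pool.Agent.SuD
  Pool.Agent.FrAsm Pool.Agent.FrN Pool.Agent.FrTop

section triv

variable {Γ F : Type} [Group Γ] [Field F] [Algebra (ZMod 2) F]
  {ρ : Γ →* SpecialLinearGroup (Fin 2) F}

/-- a subgroup without characters of order two is trivial -/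
theorem eq_bot_of_no_char [Group.FG Γ] (hinj : Function.Injective ρ)
    (φ : OO 2 ρ →ₐ[ZMod 2] ZMod 2)
    (hφ : ∀ x i j, φ ⟨(ρ x).1 i j, mem_OO ρ x i j⟩ = (1 : Matrix (Fin 2) (Fin 2) (ZMod 2)) i j)
    (C : Subgroup Γ) (hC : ∀ χ : C →* Multiplicative (ZMod 2), χ = 1) : C = ⊥ := by
  rw [Subgroup.eq_bot_iff_forall]
  intro c hc
  apply hinj
  rw [map_one]
  apply Subtype.ext
  ext i j
  -- the representation over `OO`
  let rO : Γ →* SpecialLinearGroup (Fin 2) (OO 2 ρ) := Pool.Agent.FrTop.rO ρ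
  have hr : ∀ x i j, ((rO x).1 i j : F) = (ρ x).1 i j := fun x i j => rfl
  have hm : ∀ x i j, (rO x).1 i j - (1 : Matrix (Fin 2) (Fin 2) (OO 2 ρ)) i j ∈ mI ρ φ := by
    intro x i j
    rw [mem_mI, map_sub]
    have h1 : φ ((rO x).1 i j) = (1 : Matrix (Fin 2) (Fin 2) (ZMod 2)) i j := hφ x i j
    rw [h1, Matrix.one_apply, Matrix.one_apply]
    split_ifs <;> simp
  have key : (rO c).1 i j - (1 : Matrix (Fin 2) (Fin 2) (OO 2 ρ)) i j = 0 := by
    apply krull' (φ := φ)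
    intro k
    let R := OO 2 ρ ⧸ mI ρ φ ^ k
    have hfin : Finite R := fin_quot k
    have hfM : Finite (Matrix (Fin 2) (Fin 2) R) := by
      unfold Matrix
      infer_instance
    have hfS : Finite (SpecialLinearGroup (Fin 2) R) :=
      Finite.of_injective (fun A => A.1) Subtype.val_injective
    let mk : OO 2 ρ →+* R := Ideal.Quotient.mk (mI ρ φ ^ k)
    let ψ : C →* SpecialLinearGroup (Fin 2) R :=
      ((SpecialLinearGroup.map mk).comp rO).comp C.subtype
    let J : Ideal R := (mI ρ φ).map mk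
    have hJ : J ^ k = ⊥ := by
      rw [← Ideal.map_pow]
      exact Ideal.map_quotient_self _
    have hψ1 : ∀ (x : C) (i j : Fin 2), (ψ x).1 i j - (1 : Matrix (Fin 2) (Fin 2) R) i j ∈ J := by
      intro x i j
      have h1 : mk ((rO x).1 i j - (1 : Matrix (Fin 2) (Fin 2) (OO 2 ρ)) i j) ∈ J :=
        Ideal.mem_map_of_mem _ (hm x i j)
      have h3 : mk ((1 : Matrix (Fin 2) (Fin 2) (OO 2 ρ)) i j) =
          (1 : Matrix (Fin 2) (Fin 2) R) i j := by
        rw [Matrix.one_apply, Matrix.one_apply]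
        split_ifs <;> simp
      rw [map_sub, h3] at h1
      exact h1
    have h2 : (2 : R) = 0 := two_eq
    have hP : IsPGroup 2 ψ.range := by
      rintro ⟨y, x, rfl⟩
      refine ⟨k, ?_⟩
      apply Subtype.ext
      exact sl_pow h2 J k hJ _ (hψ1 x)
    obtain ⟨y, hy, e⟩ := Pool.Agent.FrDiv.burnside hP ψ.rangeRestrict
      (MonoidHom.rangeRestrict_surjective ψ) ⊥ (fun χ _ => hC χ) ⟨c, hc⟩
    rw [Subgroup.mem_bot] at hy
    have e1 : ψ y = ψ ⟨c, hc⟩ := congrArg Subtype.val e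
    rw [hy, map_one] at e1
    have e2 : mk ((rO c).1 i j) = (1 : Matrix (Fin 2) (Fin 2) R) i j :=
      congrFun (congrFun (congrArg Subtype.val e1.symm) i) j
    have h3 : mk ((1 : Matrix (Fin 2) (Fin 2) (OO 2 ρ)) i j) =
        (1 : Matrix (Fin 2) (Fin 2) R) i j := by
      rw [Matrix.one_apply, Matrix.one_apply]
      split_ifs <;> simp
    rw [← Ideal.Quotient.eq_zero_iff_mem]
    change mk _ = 0
    rw [map_sub, e2, h3, sub_self]
  have h5 := congrArg (Subtype.val : OO 2 ρ → F) (sub_eq_zero.1 key)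
  rw [hr] at h5
  rw [h5]
  rw [Matrix.one_apply]
  change _ = (1 : Matrix (Fin 2) (Fin 2) F) i j
  rw [Matrix.one_apply]
  split_ifs <;> rfl

end triv

section main

variable {g : ℕ} {Λ Γ F : Type} [Group Λ] [Group Γ] {π : Λ →* Γ} [Field F] [Algebra (ZMod 2) F]
  {ρ : Γ →* SpecialLinearGroup (Fin 2) F}

/-- a factor is finitely generated -/
theorem fg_factor [Group.FG Γ] (hinj : Function.Injective ρ) {A C : Subgroup Γ} (h : FD Γ A C) :
    Group.FG A := by
  obtain ⟨r, hr, _⟩ := ext_of_emb h (ρ.comp A.subtype) (hinj.comp A.subtype_injective)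
    (MonoidHom.id A) (1 : C →* A)
  exact Group.fg_of_surjective (f := r) fun x => ⟨x, hr x⟩

/-- a factor without characters of odd prime order is trivial -/
theorem no_odd [Group.FG Γ] (Φ : NatBij Λ (SurfG g)) (hF : Fac π)
    (hinj : Function.Injective ρ) (φ : OO 2 ρ →ₐ[ZMod 2] ZMod 2)
    (hφ : ∀ x i j, φ ⟨(ρ x).1 i j, mem_OO ρ x i j⟩ = (1 : Matrix (Fin 2) (Fin 2) (ZMod 2)) i j)
    {A C : Subgroup Γ} (h : FD Γ A C)
    (hC : ∀ ℓ : ℕ, ℓ.Prime → ℓ ≠ 2 → ∀ χ : C →* Multiplicative (ZMod ℓ), χ = 1) : C = ⊥ := by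
  have := fg_factor hinj h
  obtain ⟨n, N, hN, h1, h2⟩ := rank_ab A
  obtain ⟨ℓ, hℓN, hℓ⟩ := Nat.exists_infinite_primes (N + 3)
  have hℓ2 : ℓ ≠ 2 := by omega
  have hdvd : ¬ ℓ ∣ N := fun h => by
    have := Nat.le_of_dvd (Nat.pos_of_ne_zero hN) h
    omega
  have : Fact ℓ.Prime := ⟨hℓ⟩
  have e1 := card_hom_add' Φ hF ℓ
  rw [card_hom_fd h (emb_prime ℓ hℓ), h1 ℓ hℓ hdvd] at e1
  have hu : Nat.card (C →* Multiplicative (ZMod ℓ)) = 1 := by
    rw [Nat.card_eq_one_iff_exists]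
    exact ⟨1, fun χ => hC ℓ hℓ hℓ2 χ⟩
  rw [hu, mul_one] at e1
  have hn : n = 2 * g := Nat.pow_right_injective hℓ.two_le e1
  have e2 := card_hom_add' Φ hF 2
  rw [card_hom_fd h emb_two] at e2
  have e3 := h2 2 Nat.prime_two
  rw [hn] at e3
  have hpos : 0 < 2 ^ (2 * g) := by positivity
  have hc1 : Nat.card (C →* Multiplicative (ZMod 2)) ≤ 1 := by
    by_contra hcon
    push Not at hcon
    have h4 : 2 ^ (2 * g) * 2 ≤
        Nat.card (A →* Multiplicative (ZMod 2)) * Nat.card (C →* Multiplicative (ZMod 2)) :=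
      Nat.mul_le_mul e3 hcon
    omega
  have hc2 : Nat.card (C →* Multiplicative (ZMod 2)) ≠ 0 := by
    intro h0
    rw [h0, mul_zero] at e2
    omega
  have hfin : Finite (C →* Multiplicative (ZMod 2)) := Nat.finite_of_card_ne_zero hc2
  have hsub : Subsingleton (C →* Multiplicative (ZMod 2)) := Finite.card_le_one_iff_subsingleton.1 hc1
  exact eq_bot_of_no_char hinj φ hφ C fun χ => Subsingleton.elim _ _

/-- NO FREE DECOMPOSITION. -/
theorem fi_of [Group.FG Γ] (Φ : NatBij Λ (SurfG g)) (hF : Fac π)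
    (hinj : Function.Injective ρ) (φ : OO 2 ρ →ₐ[ZMod 2] ZMod 2)
    (hφ : ∀ x i j, φ ⟨(ρ x).1 i j, mem_OO ρ x i j⟩ = (1 : Matrix (Fin 2) (Fin 2) (ZMod 2)) i j) :
    FI Γ := by
  intro A C h
  by_cases hC : ∀ ℓ : ℕ, ℓ.Prime → ℓ ≠ 2 → ∀ χ : C →* Multiplicative (ZMod ℓ), χ = 1
  · exact Or.inr (no_odd Φ hF hinj φ hφ h hC)
  by_cases hA : ∀ ℓ : ℕ, ℓ.Prime → ℓ ≠ 2 → ∀ χ : A →* Multiplicative (ZMod ℓ), χ = 1
  · exact Or.inl (no_odd Φ hF hinj φ hφ (FD.symm' h) hA)
  exfalso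
  push Not at hC hA
  obtain ⟨ℓ₁, p1, o1, χ₁, h1⟩ := hC
  obtain ⟨ℓ₂, p2, o2, χ₂, h2⟩ := hA
  have hodd : Odd (ℓ₁ * ℓ₂) := (p1.odd_of_ne_two o1).mul (p2.odd_of_ne_two o2)
  obtain ⟨k, _, _, _, hk⟩ := exists_units' (ℓ₁ * ℓ₂) hodd
  obtain ⟨f1, hf1⟩ := hk ℓ₁ (Dvd.intro _ rfl)
  obtain ⟨f2, hf2⟩ := hk ℓ₂ (Dvd.intro_left _ rfl)
  refine not_both Φ hF h k (f2.comp χ₂) ?_ (f1.comp χ₁) ?_
  · intro h0
    apply h2
    apply MonoidHom.ext
    intro x
    apply hf2
    have := DFunLike.congr_fun h0 x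
    rw [MonoidHom.one_apply, map_one]
    exact this
  · intro h0
    apply h1
    apply MonoidHom.ext
    intro x
    apply hf1
    have := DFunLike.congr_fun h0 x
    rw [MonoidHom.one_apply, map_one]
    exact this

end main

end Pool.Agent.SuFI
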