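import Pool.Agent.Lib.MP_305fdd_al.Su.FI.Root
import Pool.Agent.Lib.MP_305fdd_al.Su.FI.Main
import Pool.Agent.Lib.MP_305fdd_al.Fr.N.Hlp

/-!
# MP_305fdd_al, closed surface groups: no root leaf `A *_{w ^ m} ⟨w⟩`, `m ≥ 2`
-/

set_option autoImplicit false
set_option linter.unusedSectionVars false

namespace Pool.Agent.SuFI

open Matrix Pool.Agent.Lib.MP_305fdd_al Pool.Agent.MP_305fdd_al Pool.Agent.SurfCnt Pool.Agent.SuD
  Pool.Agent.FrAsm Pool.Agent.FrS Pool.Agent.FrN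

variable {g : ℕ} {Λ Γ : Type} [Group Λ] [Group Γ] {π : Λ →* Γ}

/-- restriction of characters to `A` -/
theorem restr {A : Subgroup Γ} (hA : Group.FG A) {w : Γ} {m : ℕ}
    (h : IsAm ⊤ A (Subgroup.zpowers w) (Subgroup.zpowers (w ^ m)))
    {G : Type} [CommGroup G] [Finite G] (hG : ∀ x : G, x ^ m = 1 → x = 1) :
    Nat.card (Γ →* G) ≤ Nat.card (A →* G) := by
  have hfin : Finite (A →* G) := by
    obtain ⟨S, hS⟩ := hA.out
    refine Finite.of_injective (fun f : A →* G => fun s : S => f s.1) ?_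
    intro f f' he
    refine MonoidHom.eq_of_eqOn_dense hS ?_
    intro s hs
    exact congrFun he ⟨s, hs⟩
  refine Nat.card_le_card_of_injective (fun f : Γ →* G => f.comp A.subtype) ?_
  intro f f' he
  have hA' : ∀ x : A, f x = f' x := fun x => DFunLike.congr_fun he x
  have hw : f w = f' w := by
    have h1 : (f w * (f' w)⁻¹) ^ m = 1 := by
      rw [mul_pow, inv_pow, ← map_pow, ← map_pow]
      have h2 := hA' ⟨w ^ m, h.le (Subgroup.mem_zpowers _)⟩
      change f (w ^ m) = f' (w ^ m) at h2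
      rw [h2, mul_inv_cancel]
    exact mul_inv_eq_one.1 (hG _ h1)
  refine am_hom_eq h hA' ?_
  rintro ⟨x, n, rfl⟩
  change f (w ^ n) = f' (w ^ n)
  rw [map_zpow, map_zpow, hw]

theorem no_root_even (Φ : NatBij Λ (SurfG g)) (hF : Fac π) {A : Subgroup Γ} (hA : Group.FG A)
    {w : Γ} (hw : ∀ n : ℕ, n ≠ 0 → w ^ n ≠ 1) {m : ℕ} (hm : Even m) (hm0 : m ≠ 0)
    (h : IsAm ⊤ A (Subgroup.zpowers w) (Subgroup.zpowers (w ^ m))) : False := by
  obtain ⟨ℓ, hℓm, hℓ⟩ := Nat.exists_infinite_primes (m + 3)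
  have hℓ2 : ℓ ≠ 2 := by omega
  have hodd : Odd ℓ := hℓ.odd_of_ne_two hℓ2
  have : Fact ℓ.Prime := ⟨hℓ⟩
  have : NeZero ℓ := ⟨hℓ.ne_zero⟩
  have hdvd : ¬ ℓ ∣ m := fun h => by
    have := Nat.le_of_dvd (Nat.pos_of_ne_zero hm0) h
    omega
  refine root_core Φ hF hA hw h (Q := ℤˣ) (P := ZMod ℓ) (emb_dih ℓ hodd) (-1) ?_ ?_ ?_
  · intro v
    obtain ⟨n, rfl⟩ := hm
    have h1 : (⟨v, -1⟩ : AF ℤˣ (ZMod ℓ)) * ⟨v, -1⟩ = 1 := by
      apply AF.ext
      · rw [AF.mul_v, AF.one_v, Units.smul_def]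
        simp
      · rfl
    rw [← two_mul, pow_mul, pow_two, h1, one_pow]
  · rintro θ ⟨x, hx⟩
    have h1 := card_Crs Φ θ (ZMod ℓ)
    have h2 : IP (ZMod ℓ) θ.range = ⊤ := by
      rw [eq_top_iff]
      intro p _
      have hxr : θ x ∈ θ.range := ⟨x, rfl⟩
      have h3 := sub_mem_IP (P := ZMod ℓ) hxr ((2 : ZMod ℓ)⁻¹ * p)
      have h4 : (2 : ZMod ℓ) ≠ 0 := by
        intro h5
        have h6 : ((2 : ℕ) : ZMod ℓ) = 0 := by exact_mod_cast h5
        rw [ZMod.natCast_eq_zero_iff] at h6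
        exact hℓ2 ((Nat.prime_dvd_prime_iff_eq hℓ Nat.prime_two).1 h6)
      have h5 : (2 : ZMod ℓ)⁻¹ * p - θ x • ((2 : ZMod ℓ)⁻¹ * p) = p := by
        rw [hx, Units.smul_def]
        have h6 : ((-1 : ℤˣ) : ℤ) • ((2 : ZMod ℓ)⁻¹ * p) = -((2 : ZMod ℓ)⁻¹ * p) := by simp
        rw [h6, sub_neg_eq_add, ← two_mul, mul_inv_cancel_left₀ h4]
      rwa [h5] at h3
    rw [h2, AddSubgroup.card_top] at h1
    exact h1.le
  · rw [Nat.card_zmod, ← card_hom_add' Φ hF ℓ]
    refine restr hA h ?_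
    intro x hx
    have h1 : (m : ZMod ℓ) * x.toAdd = 0 := by
      have h2 := congrArg Multiplicative.toAdd hx
      rw [toAdd_pow, toAdd_one, nsmul_eq_mul] at h2
      exact h2
    rcases mul_eq_zero.1 h1 with h2 | h2
    · exact absurd ((ZMod.natCast_eq_zero_iff _ _).1 h2) hdvd
    · exact Multiplicative.toAdd.injective h2

theorem no_root_odd (Φ : NatBij Λ (SurfG g)) (hF : Fac π) {A : Subgroup Γ} (hA : Group.FG A)
    {w : Γ} (hw : ∀ n : ℕ, n ≠ 0 → w ^ n ≠ 1) {m : ℕ} (hm : Odd m) (hm1 : m ≠ 1)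
    (h : IsAm ⊤ A (Subgroup.zpowers w) (Subgroup.zpowers (w ^ m))) : False := by
  have hℓ : m.minFac.Prime := Nat.minFac_prime hm1
  have hℓm : m.minFac ∣ m := Nat.minFac_dvd m
  have hodd : Odd m.minFac := hm.of_dvd_nat hℓm
  set ℓ := m.minFac
  obtain ⟨k, _, _, _, hk⟩ := exists_units' ℓ hodd
  obtain ⟨f, hf⟩ := hk ℓ dvd_rfl
  have hk2 : CharP k 2 := charP_of_injective_algebraMap (algebraMap (ZMod 2) k).injective 2
  set c : kˣ := f (Multiplicative.ofAdd 1) with hc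
  have hc1 : c ≠ 1 := by
    intro h0
    have h1 := hf (h0.trans (map_one f).symm)
    have h2 : (1 : ZMod ℓ) = 0 := congrArg Multiplicative.toAdd h1
    have : Fact ℓ.Prime := ⟨hℓ⟩
    exact one_ne_zero h2
  have hcm : c ^ m = 1 := by
    obtain ⟨d, hd⟩ := hℓm
    rw [hd, pow_mul, hc, ← map_pow]
    have h1 : (Multiplicative.ofAdd (1 : ZMod ℓ)) ^ ℓ = 1 := by
      apply Multiplicative.toAdd.injective
      rw [toAdd_pow, toAdd_ofAdd, toAdd_one, nsmul_eq_mul, mul_one]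
      exact ZMod.natCast_self ℓ
    rw [h1, map_one, one_pow]
  have hcv : (1 : k) - (c : k) ≠ 0 := by
    intro h0
    apply hc1
    apply Units.ext
    rw [Units.val_one]
    exact (sub_eq_zero.1 h0).symm
  refine root_core Φ hF hA hw h (Q := kˣ) (P := k) (emb_AF k) c ?_ ?_ ?_
  · intro v
    have h1 : (⟨v, c⟩ : AF kˣ k) =
        ⟨((1 : k) - (c : k))⁻¹ * v, 1⟩ * ⟨0, c⟩ * (⟨((1 : k) - (c : k))⁻¹ * v, 1⟩)⁻¹ := by
      apply AF.ext
      · rw [AF.mul_v, AF.mul_v, AF.mul_q, AF.inv_v, inv_one, one_smul, one_smul, one_mul,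
          Units.smul_def, smul_eq_mul]
        field_simp
        ring
      · rw [AF.mul_q, AF.mul_q, AF.inv_q, one_mul, inv_one, mul_one]
    have h2 : ∀ n : ℕ, (⟨0, c⟩ : AF kˣ k) ^ n = ⟨0, c ^ n⟩ := by
      intro n
      induction n with
      | zero => rw [pow_zero, pow_zero]; rfl
      | succ n ih =>
        rw [pow_succ, pow_succ, ih]
        apply AF.ext
        · simp
        · rfl
    rw [h1, conj_pow, h2, hcm]
    have h3 : (⟨0, 1⟩ : AF kˣ k) = 1 := rfl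
    rw [h3, mul_one, mul_inv_cancel]
  · rintro θ ⟨x, hx⟩
    refine (card_crs_ne Φ k θ ?_).le
    rintro rfl
    exact hc1 hx.symm
  · have h1 : Nat.card (Γ →* Multiplicative k) = Nat.card k ^ (2 * g) := by
      rw [hF.card (emb_add k), card_hom_add Φ]
    rw [← h1]
    refine restr hA h ?_
    intro x hx
    have h2 : (m : k) * x.toAdd = 0 := by
      have h2 := congrArg Multiplicative.toAdd hx
      rw [toAdd_pow, toAdd_one, nsmul_eq_mul] at h2
      exact h2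
    have h3 : (m : k) = 1 := by
      obtain ⟨n, rfl⟩ := hm
      push_cast
      rw [CharTwo.two_eq_zero, zero_mul, zero_add]
    rw [h3, one_mul] at h2
    exact Multiplicative.toAdd.injective h2

/-- NO ROOT LEAF. -/
theorem no_root (Φ : NatBij Λ (SurfG g)) (hF : Fac π) {A : Subgroup Γ} (hA : Group.FG A)
    {w : Γ} (hw : ∀ n : ℕ, n ≠ 0 → w ^ n ≠ 1) {m : ℕ} (hm : 2 ≤ m)
    (h : IsAm ⊤ A (Subgroup.zpowers w) (Subgroup.zpowers (w ^ m))) : False := by
  rcases Nat.even_or_odd m with h1 | h1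
  · exact no_root_even Φ hF hA hw h1 (by omega) h
  · exact no_root_odd Φ hF hA hw h1 (by omega) h

section tf

variable {F : Type} [Field F] [Algebra (ZMod 2) F] {ρ : Γ →* SpecialLinearGroup (Fin 2) F}

/-- `Γ` is torsion free -/
theorem tf_of [Group.FG Γ] (hinj : Function.Injective ρ)
    (hdiv : ∀ x, (ρ x).1.trace = 0 → x = 1) (φ : OO 2 ρ →ₐ[ZMod 2] ZMod 2)
    (hφ : ∀ x i j, φ ⟨(ρ x).1 i j, mem_OO ρ x i j⟩ = (1 : Matrix (Fin 2) (Fin 2) (ZMod 2)) i j)
    (x : Γ) (n : ℕ) (hn : n ≠ 0) (hx : x ^ n = 1) : x = 1 := by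
  have hF2 : CharP F 2 := charP_of_injective_algebraMap (algebraMap (ZMod 2) F).injective 2
  have two : ∀ y : Γ, y ^ 2 = 1 → y = 1 := by
    intro y hy
    apply hdiv
    have h1 : ρ y * ρ y = 1 := by rw [← map_mul, ← pow_two, hy, map_one]
    have h2 := tr_rel (ρ y) (ρ y)
    rw [h1, mul_inv_cancel] at h2
    have h3 : (1 : SpecialLinearGroup (Fin 2) F).1.trace = 2 := by
      change (1 : Matrix (Fin 2) (Fin 2) F).trace = 2
      simp
    rw [h3] at h2
    have h4 : (2 : F) = 0 := CharTwo.two_eq_zero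
    rw [h4, add_zero] at h2
    exact mul_self_eq_zero.1 h2.symm
  have odd : ∀ (y : Γ) (m : ℕ), Odd m → y ^ m = 1 → y = 1 := by
    intro y m hm hy
    have h1 : Subgroup.zpowers y = ⊥ := by
      refine eq_bot_of_no_char hinj φ hφ _ fun χ => ?_
      have h2 : χ ⟨y, Subgroup.mem_zpowers y⟩ = 1 := by
        have h3 : χ ⟨y, Subgroup.mem_zpowers y⟩ ^ m = 1 := by
          rw [← map_pow]
          have h4 : (⟨y, Subgroup.mem_zpowers y⟩ : Subgroup.zpowers y) ^ m = 1 := Subtype.ext hy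
          rw [h4, map_one]
        obtain ⟨k, rfl⟩ := hm
        have h5 : χ ⟨y, Subgroup.mem_zpowers y⟩ ^ 2 = 1 := by
          apply Multiplicative.toAdd.injective
          rw [toAdd_pow, toAdd_one, nsmul_eq_mul]
          have : ((2 : ℕ) : ZMod 2) = 0 := rfl
          rw [this, zero_mul]
        rwa [pow_succ, pow_mul, h5, one_pow, one_mul] at h3
      apply MonoidHom.ext
      rintro ⟨z, k, rfl⟩
      have h3 : (⟨y ^ k, ⟨k, rfl⟩⟩ : Subgroup.zpowers y) = ⟨y, Subgroup.mem_zpowers y⟩ ^ k := rfl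
      change χ ⟨y ^ k, _⟩ = 1
      rw [h3, map_zpow, h2, _root_.one_zpow]
    exact Subgroup.zpowers_eq_bot.1 h1
  obtain ⟨a, m, hm, rfl⟩ := Nat.exists_eq_two_pow_mul_odd hn
  rw [pow_mul] at hx
  have h1 := odd _ m hm hx
  clear hx hn
  induction a with
  | zero => simpa using h1
  | succ a ih =>
    rw [pow_succ, pow_mul] at h1
    exact ih (two _ h1)

end tf

end Pool.Agent.SuFI
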