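import Pool.Agent.Lib.MP_305fdd_al.Su.FI.Cnt
import Pool.Agent.Lib.MP_305fdd_al.Fr.S.Defs

/-!
# MP_305fdd_al, closed surface groups: no root leaf `A *_{w ^ m} ⟨w⟩`
-/

set_option autoImplicit false
set_option linter.unusedSectionVars false

namespace Pool.Agent.SuFI

open Matrix Pool.Agent.Lib.MP_305fdd_al Pool.Agent.MP_305fdd_al Pool.Agent.SurfCnt Pool.Agent.SuD
  Pool.Agent.FrAsm Pool.Agent.FrS

/-! ## The dihedral groups -/

section dih

/-- the reflection -/
def Wr (κ : Type) [Field κ] [Algebra (ZMod 2) κ] : SpecialLinearGroup (Fin 2) κ :=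
  ⟨!![0, 1; 1, 0], by
    have : CharP κ 2 := charP_of_injective_algebraMap (algebraMap (ZMod 2) κ).injective 2
    rw [Matrix.det_fin_two_of, mul_zero, mul_one, zero_sub]
    exact CharTwo.neg_eq 1⟩

/-- diagonal matrices -/
def dg1 {κ : Type} [Field κ] (u : κˣ) : SpecialLinearGroup (Fin 2) κ :=
  ⟨!![(u : κ), 0; 0, ((u⁻¹ : κˣ) : κ)], by
    rw [Matrix.det_fin_two_of]
    simp⟩

theorem dg1_mul {κ : Type} [Field κ] (u v : κˣ) : dg1 (u * v) = dg1 u * dg1 v := by
  apply Subtype.ext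
  change !![((u * v : κˣ) : κ), 0; 0, (((u * v)⁻¹ : κˣ) : κ)] =
    !![(u : κ), 0; 0, ((u⁻¹ : κˣ) : κ)] * !![(v : κ), 0; 0, ((v⁻¹ : κˣ) : κ)]
  rw [Matrix.mul_fin_two]
  ext i j
  fin_cases i <;> fin_cases j <;> simp [mul_comm]

theorem dg1_one {κ : Type} [Field κ] : dg1 (1 : κˣ) = 1 := by
  apply Subtype.ext
  change !![((1 : κˣ) : κ), 0; 0, (((1 : κˣ)⁻¹ : κˣ) : κ)] = 1
  ext i j
  fin_cases i <;> fin_cases j <;> simp

theorem Wr_sq (κ : Type) [Field κ] [Algebra (ZMod 2) κ] : Wr κ * Wr κ = 1 := by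
  apply Subtype.ext
  change !![(0 : κ), 1; 1, 0] * !![(0 : κ), 1; 1, 0] = 1
  rw [Matrix.mul_fin_two]
  ext i j
  fin_cases i <;> fin_cases j <;> simp

theorem Wr_dg1 {κ : Type} [Field κ] [Algebra (ZMod 2) κ] (u : κˣ) :
    Wr κ * dg1 u = dg1 u⁻¹ * Wr κ := by
  apply Subtype.ext
  change !![(0 : κ), 1; 1, 0] * !![(u : κ), 0; 0, ((u⁻¹ : κˣ) : κ)] =
    !![((u⁻¹ : κˣ) : κ), 0; 0, ((u⁻¹⁻¹ : κˣ) : κ)] * !![(0 : κ), 1; 1, 0]
  rw [Matrix.mul_fin_two, Matrix.mul_fin_two]
  ext i j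
  fin_cases i <;> fin_cases j <;> simp

open Classical in
/-- the sign as a power of the reflection -/
noncomputable def WE (κ : Type) [Field κ] [Algebra (ZMod 2) κ] (e : ℤˣ) :
    SpecialLinearGroup (Fin 2) κ := if e = 1 then 1 else Wr κ

theorem WE_mul (κ : Type) [Field κ] [Algebra (ZMod 2) κ] (e e' : ℤˣ) :
    WE κ (e * e') = WE κ e * WE κ e' := by
  have hne : (-1 : ℤˣ) ≠ 1 := by decide
  rcases Int.units_eq_one_or e with rfl | rfl <;> rcases Int.units_eq_one_or e' with rfl | rfl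
  · simp [WE]
  · simp [WE]
  · simp [WE]
  · simp [WE, hne, Wr_sq]

theorem WE_dg1 {κ : Type} [Field κ] [Algebra (ZMod 2) κ] {ℓ : ℕ}
    (f : Multiplicative (ZMod ℓ) →* κˣ) (e : ℤˣ) (v : ZMod ℓ) :
    WE κ e * dg1 (f (Multiplicative.ofAdd v)) =
      dg1 (f (Multiplicative.ofAdd (e • v))) * WE κ e := by
  have hne : (-1 : ℤˣ) ≠ 1 := by decide
  rcases Int.units_eq_one_or e with rfl | rfl
  · simp [WE]
  · have h1 : (-1 : ℤˣ) • v = -v := by
      rw [Units.smul_def]
      simp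
    rw [h1, ofAdd_neg, map_inv]
    simp only [WE, if_neg hne]
    exact Wr_dg1 _

/-- the dihedral group of order `2 ℓ` in `SL_2(κ)` -/
noncomputable def jD {κ : Type} [Field κ] [Algebra (ZMod 2) κ] {ℓ : ℕ}
    (f : Multiplicative (ZMod ℓ) →* κˣ) : AF ℤˣ (ZMod ℓ) →* SpecialLinearGroup (Fin 2) κ where
  toFun x := dg1 (f (Multiplicative.ofAdd x.v)) * WE κ x.q
  map_one' := by
    rw [AF.one_v, AF.one_q, ofAdd_zero, map_one, dg1_one, one_mul]
    simp [WE]
  map_mul' x y := by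
    rw [AF.mul_v, AF.mul_q, ofAdd_add, map_mul, dg1_mul, WE_mul]
    have h := WE_dg1 f x.q y.v
    calc dg1 (f (Multiplicative.ofAdd x.v)) * dg1 (f (Multiplicative.ofAdd (x.q • y.v))) *
        (WE κ x.q * WE κ y.q) = dg1 (f (Multiplicative.ofAdd x.v)) *
          (dg1 (f (Multiplicative.ofAdd (x.q • y.v))) * WE κ x.q) * WE κ y.q := by group
      _ = _ := by rw [← h]; group

theorem jD_inj {κ : Type} [Field κ] [Algebra (ZMod 2) κ] {ℓ : ℕ}
    (f : Multiplicative (ZMod ℓ) →* κˣ) (hf : Function.Injective f) :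
    Function.Injective (jD f) := by
  have hne : (-1 : ℤˣ) ≠ 1 := by decide
  rw [injective_iff_map_eq_one]
  intro x hx
  have h1 : dg1 (f (Multiplicative.ofAdd x.v)) * WE κ x.q = 1 := hx
  have hq : x.q = 1 := by
    rcases Int.units_eq_one_or x.q with h | h
    · exact h
    · exfalso
      rw [h] at h1
      have h2 : WE κ (-1 : ℤˣ) = Wr κ := by simp [WE, hne]
      rw [h2] at h1
      have h3 : (dg1 (f (Multiplicative.ofAdd x.v)) * Wr κ).1 0 0 = 0 := by
        change (!![((f (Multiplicative.ofAdd x.v) : κˣ) : κ), 0; 0, _] * !![(0 : κ), 1; 1, 0]) 0 0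
          = 0
        rw [Matrix.mul_fin_two]
        simp
      rw [h1] at h3
      exact one_ne_zero h3
  rw [hq] at h1
  have h2 : WE κ (1 : ℤˣ) = 1 := by simp [WE]
  rw [h2, mul_one] at h1
  have h3 : ((f (Multiplicative.ofAdd x.v) : κˣ) : κ) = 1 :=
    congrFun (congrFun (congrArg Subtype.val h1) 0) 0
  have h4 : f (Multiplicative.ofAdd x.v) = 1 := Units.ext h3
  have h5 : x.v = 0 := by
    have := hf (h4.trans (map_one f).symm)
    exact congrArg Multiplicative.toAdd this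
  exact AF.ext h5 hq

theorem emb_dih (ℓ : ℕ) (hℓ : Odd ℓ) : Emb (AF ℤˣ (ZMod ℓ)) := by
  obtain ⟨κ, _, _, _, f, hf⟩ := exists_units ℓ hℓ
  exact ⟨κ, inferInstance, inferInstance, inferInstance, jD f, jD_inj f hf⟩

end dih

/-! ## Amalgams -/

section am

variable {Γ : Type} [Group Γ] {A A' D : Subgroup Γ}

/-- gluing of homomorphisms to a group which embeds into `SL_2(R)` -/
theorem am_ext (h : IsAm ⊤ A A' D) {Q : Type} [Group Q] (hQ : Emb Q) (a : A →* Q) (c : A' →* Q)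
    (hD : ∀ d (hd : d ∈ D), a ⟨d, h.le hd⟩ = c ⟨d, h.le' hd⟩) :
    ∃ r : Γ →* Q, (∀ x : A, r x = a x) ∧ ∀ x : A', r x = c x := by
  classical
  obtain ⟨κ, _, _, _, j, hj⟩ := hQ
  let ra : Γ → SpecialLinearGroup (Fin 2) κ := fun x => if hx : x ∈ A then j (a ⟨x, hx⟩) else 1
  let rc : Γ → SpecialLinearGroup (Fin 2) κ := fun x => if hx : x ∈ A' then j (c ⟨x, hx⟩) else 1
  have hra : ∀ x (hx : x ∈ A), ra x = j (a ⟨x, hx⟩) := fun x hx => dif_pos hx
  have hrc : ∀ x (hx : x ∈ A'), rc x = j (c ⟨x, hx⟩) := fun x hx => dif_pos hx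
  obtain ⟨q, hq, hqa, hqc⟩ := h.ext κ ra rc (by
      intro x hx y hy
      rw [hra x hx, hra y hy, hra _ (mul_mem hx hy), ← map_mul, ← map_mul]
      rfl) (by
      intro x hx y hy
      rw [hrc x hx, hrc y hy, hrc _ (mul_mem hx hy), ← map_mul, ← map_mul]
      rfl) (by
      intro d hd
      rw [hra d (h.le hd), hrc d (h.le' hd), hD d hd])
  let q' : Γ →* SpecialLinearGroup (Fin 2) κ :=
    MonoidHom.mk' q (fun x y => hq x (Subgroup.mem_top x) y (Subgroup.mem_top y))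
  have hqr : ∀ x, q' x ∈ j.range := by
    intro x
    have h1 : (⊤ : Subgroup Γ) ≤ j.range.comap q' := by
      rw [h.sup]
      refine sup_le ?_ ?_
      · intro y hy
        exact ⟨a ⟨y, hy⟩, by rw [← hra y hy]; exact (hqa y hy).symm⟩
      · intro y hy
        exact ⟨c ⟨y, hy⟩, by rw [← hrc y hy]; exact (hqc y hy).symm⟩
    exact h1 (Subgroup.mem_top x)
  let e := (MonoidHom.ofInjective hj).symm
  have he : ∀ q : Q, e ⟨j q, ⟨q, rfl⟩⟩ = q := fun q => (MonoidHom.ofInjective hj).symm_apply_apply q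
  refine ⟨e.toMonoidHom.comp (q'.codRestrict j.range hqr), ?_, ?_⟩
  · intro x
    change e ⟨q' x, hqr x⟩ = a x
    rw [← he (a x)]
    congr 1
    apply Subtype.ext
    change q x = j (a x)
    rw [hqa x x.2, hra x x.2]
  · intro x
    change e ⟨q' x, hqr x⟩ = c x
    rw [← he (c x)]
    congr 1
    apply Subtype.ext
    change q x = j (c x)
    rw [hqc x x.2, hrc x x.2]

theorem am_hom_eq (h : IsAm ⊤ A A' D) {Q : Type} [Group Q] {r r' : Γ →* Q}
    (hA : ∀ x : A, r x = r' x) (hC : ∀ x : A', r x = r' x) : r = r' := by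
  apply MonoidHom.ext
  intro x
  have h1 : (⊤ : Subgroup Γ) ≤ r.eqLocus r' := by
    rw [h.sup]
    exact sup_le (fun y hy => hA ⟨y, hy⟩) (fun y hy => hC ⟨y, hy⟩)
  exact h1 (Subgroup.mem_top x)

/-- homomorphisms from an infinite cyclic subgroup -/
theorem exists_zp {w : Γ} (hw : ∀ n : ℕ, n ≠ 0 → w ^ n ≠ 1) {Q : Type} [Group Q] (q : Q) :
    ∃ c : Subgroup.zpowers w →* Q, c ⟨w, Subgroup.mem_zpowers w⟩ = q ∧
      ∀ (n : ℕ) (h : w ^ n ∈ Subgroup.zpowers w), c ⟨w ^ n, h⟩ = q ^ n := by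
  have hinj : Function.Injective (fun n : ℤ => w ^ n) := by
    intro m n hmn
    by_contra hne
    have h1 : w ^ (m - n) = 1 := by
      rw [_root_.zpow_sub]
      change w ^ m * (w ^ n)⁻¹ = 1
      rw [show w ^ m = w ^ n from hmn, mul_inv_cancel]
    have h2 : w ^ (m - n).natAbs = 1 := by
      rcases Int.natAbs_eq (m - n) with h | h
      · rw [← zpow_natCast, ← h]
        exact h1
      · have h3 : ((m - n).natAbs : ℤ) = -(m - n) := by omega
        rw [← zpow_natCast, h3, _root_.zpow_neg, h1, inv_one]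
    exact hw _ (by omega) h2
  choose k hk using fun x : Subgroup.zpowers w => x.2
  have hk' : ∀ (n : ℤ) (h : w ^ n ∈ Subgroup.zpowers w), k ⟨w ^ n, h⟩ = n :=
    fun n h => hinj (hk ⟨w ^ n, h⟩)
  refine ⟨MonoidHom.mk' (fun x => q ^ k x) (fun x y => ?_), ?_, fun n h => ?_⟩
  · rw [← _root_.zpow_add]
    congr 1
    apply hinj
    change w ^ k (x * y) = w ^ (k x + k y)
    rw [_root_.zpow_add, show w ^ k x = x from hk x, show w ^ k y = y from hk y]
    exact hk (x * y)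
  · change q ^ k ⟨w, Subgroup.mem_zpowers w⟩ = q
    have h1 : (⟨w, Subgroup.mem_zpowers w⟩ : Subgroup.zpowers w) =
        ⟨w ^ (1 : ℤ), by rw [zpow_one]; exact Subgroup.mem_zpowers w⟩ :=
      Subtype.ext (zpow_one w).symm
    rw [h1, hk', zpow_one]
  · change q ^ k ⟨w ^ n, h⟩ = q ^ n
    have h1 : (⟨w ^ n, h⟩ : Subgroup.zpowers w) =
        ⟨w ^ (n : ℤ), by rw [zpow_natCast]; exact h⟩ :=
      Subtype.ext (zpow_natCast w n).symm
    rw [h1, hk', zpow_natCast]

end am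

section root

variable {g : ℕ} {Λ Γ : Type} [Group Λ] [Group Γ] {π : Λ →* Γ}

/-- the numerical core -/
theorem root_core (Φ : NatBij Λ (SurfG g)) (hF : Fac π) {A : Subgroup Γ} (hA : Group.FG A) {w : Γ}
    (hw : ∀ n : ℕ, n ≠ 0 → w ^ n ≠ 1) {m : ℕ}
    (h : IsAm ⊤ A (Subgroup.zpowers w) (Subgroup.zpowers (w ^ m)))
    {Q P : Type} [Group Q] [Finite Q] [AddCommGroup P] [Finite P] [Nontrivial P]
    [DistribMulAction Q P]
    (hE : Emb (AF Q P)) (c : Q) (hc : ∀ v : P, (⟨v, c⟩ : AF Q P) ^ m = 1)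
    (h1 : ∀ θ : Λ →* Q, (∃ x, θ x = c) → Nat.card (Crs θ P) * Nat.card P ≤ Nat.card P ^ (2 * g))
    (h2 : Nat.card P ^ (2 * g) ≤ Nat.card (A →* Multiplicative P)) : False := by
  classical
  have hEP : Emb (Multiplicative P) := by
    refine hE.of_inj
      { toFun := fun x => (⟨x.toAdd, 1⟩ : AF Q P)
        map_one' := rfl
        map_mul' := fun x y => AF.ext (by simp) (by simp) } ?_
    intro x y h
    exact congrArg AF.v h
  have hcm : c ^ m = 1 := by
    have h3 := congrArg AF.q (hc 0)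
    have h4 : ∀ n : ℕ, ((⟨0, c⟩ : AF Q P) ^ n).q = c ^ n := by
      intro n
      induction n with
      | zero => simp
      | succ n ih => rw [pow_succ, pow_succ, AF.mul_q, ih]
    rw [h4] at h3
    exact h3
  have hEQ : Emb Q := by
    refine hE.of_inj
      { toFun := fun x => (⟨0, x⟩ : AF Q P)
        map_one' := rfl
        map_mul' := fun x y => AF.ext (by simp) rfl } ?_
    intro x y h
    exact congrArg AF.q h
  -- the elements of `⟨w ^ m⟩`
  have hzp : ∀ {G : Type} [Group G] (f f' : Subgroup.zpowers (w ^ m) →* G),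
      f ⟨w ^ m, Subgroup.mem_zpowers _⟩ = f' ⟨w ^ m, Subgroup.mem_zpowers _⟩ → f = f' := by
    intro G _ f f' hff
    apply MonoidHom.ext
    rintro ⟨x, n, rfl⟩
    have h5 : (⟨(w ^ m) ^ n, ⟨n, rfl⟩⟩ : Subgroup.zpowers (w ^ m)) =
        ⟨w ^ m, Subgroup.mem_zpowers _⟩ ^ n := rfl
    rw [h5, map_zpow, map_zpow, hff]
  have hwm : w ^ m ∈ A := h.le (Subgroup.mem_zpowers _)
  -- the character
  obtain ⟨cq, hcq1, hcq⟩ := exists_zp hw c
  obtain ⟨θ, hθA, hθw⟩ := am_ext h hEQ (1 : A →* Q) cq (by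
    intro d hd
    have h6 := hzp ((1 : A →* Q).comp (Subgroup.inclusion h.le))
      (cq.comp (Subgroup.inclusion h.le')) (by
        change (1 : Q) = cq ⟨w ^ m, _⟩
        rw [hcq, hcm])
    exact DFunLike.congr_fun h6 ⟨d, hd⟩)
  have hθw1 : θ w = c := by
    have h6 := hθw ⟨w, Subgroup.mem_zpowers w⟩
    rw [hcq1] at h6
    exact h6
  -- crossed homomorphisms of `Γ`
  let U := {u : A →* Multiplicative P // u ⟨w ^ m, hwm⟩ = 1}
  have hfinP : Finite (A →* Multiplicative P) := by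
    obtain ⟨S, hS⟩ := hA.out
    refine Finite.of_injective (fun f : A →* Multiplicative P => fun s : S => f s.1) ?_
    intro f f' he
    refine MonoidHom.eq_of_eqOn_dense hS ?_
    intro s hs
    exact congrFun he ⟨s, hs⟩
  have hex : ∀ p : U × P, ∃ ψ : Γ →* AF Q P, (∀ x : A, ψ x = ⟨(p.1.1 x).toAdd, 1⟩) ∧
      ψ w = ⟨p.2, c⟩ := by
    rintro ⟨⟨u, hu⟩, v⟩
    obtain ⟨cw, hcw1, hcw⟩ := exists_zp hw (⟨v, c⟩ : AF Q P)
    let a : A →* AF Q P := MonoidHom.mk' (fun x => (⟨(u x).toAdd, 1⟩ : AF Q P)) (fun x y => by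
      apply AF.ext
      · rw [AF.mul_v, one_smul, map_mul]
        rfl
      · rw [AF.mul_q, mul_one])
    obtain ⟨ψ, hψA, hψw⟩ := am_ext h hE a cw (by
      intro d hd
      have h6 := hzp (a.comp (Subgroup.inclusion h.le)) (cw.comp (Subgroup.inclusion h.le')) (by
          change (⟨(u ⟨w ^ m, hwm⟩).toAdd, 1⟩ : AF Q P) = cw ⟨w ^ m, _⟩
          rw [hcw, hc, hu]
          rfl)
      exact DFunLike.congr_fun h6 ⟨d, hd⟩)
    refine ⟨ψ, hψA, ?_⟩
    have h6 := hψw ⟨w, Subgroup.mem_zpowers w⟩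
    rw [hcw1] at h6
    exact h6
  choose ψ hψA hψw using hex
  have hψθ : ∀ p, (AF.pr Q P).comp (ψ p) = θ := by
    intro p
    refine am_hom_eq h ?_ ?_
    · intro x
      rw [MonoidHom.comp_apply, hψA, hθA]
      rfl
    · rintro ⟨x, n, rfl⟩
      change (AF.pr Q P) (ψ p (w ^ n)) = θ (w ^ n)
      rw [map_zpow, map_zpow, map_zpow, hψw, hθw1]
      rfl
  have hfinC : Finite (Crs (θ.comp π) P) := by
    apply Nat.finite_of_card_ne_zero
    intro h0
    have h8 := card_Crs Φ (θ.comp π) P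
    rw [h0, zero_mul] at h8
    have : 0 < Nat.card P := Nat.card_pos
    have h9 : 0 < Nat.card P ^ (2 * g) := by positivity
    omega
  have hcardC : Nat.card (Crs θ P) = Nat.card (Crs (θ.comp π) P) := hF.card_Crs hE θ
  have hfinT : Finite (Crs θ P) := by
    apply Nat.finite_of_card_ne_zero
    rw [hcardC]
    exact Nat.card_ne_zero.2 ⟨inferInstance, hfinC⟩
  have hle : Nat.card U * Nat.card P ≤ Nat.card (Crs θ P) := by
    rw [← Nat.card_prod, Nat.card_congr (crsEquiv θ P)]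
    have hfinX : Finite {ψ : Γ →* AF Q P // (AF.pr Q P).comp ψ = θ} :=
      Finite.of_equiv _ (crsEquiv θ P)
    refine Nat.card_le_card_of_injective (fun p : U × P =>
      (⟨ψ p, hψθ p⟩ : {ψ : Γ →* AF Q P // (AF.pr Q P).comp ψ = θ})) ?_
    intro p p' hpp
    have h9 : ψ p = ψ p' := congrArg Subtype.val hpp
    refine Prod.ext (Subtype.ext (MonoidHom.ext fun x => ?_)) ?_
    · have h10 := hψA p x
      rw [h9, hψA p' x] at h10
      exact (congrArg AF.v h10).symm
    · have h10 := hψw p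
      rw [h9, hψw p'] at h10
      exact (congrArg AF.v h10).symm
  have hup : Nat.card (Crs θ P) * Nat.card P ≤ Nat.card P ^ (2 * g) := by
    rw [hcardC]
    obtain ⟨y, hy⟩ := hF.surj w
    exact h1 (θ.comp π) ⟨y, by rw [MonoidHom.comp_apply, hy, hθw1]⟩
  -- all characters of `A`
  have hall : Nat.card (A →* Multiplicative P) ≤ Nat.card U * Nat.card P := by
    let ev : (A →* Multiplicative P) →* Multiplicative P :=
      { toFun := fun f => f ⟨w ^ m, hwm⟩
        map_one' := rfl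
        map_mul' := fun _ _ => rfl }
    have e1 : Nat.card ev.ker = Nat.card U := rfl
    have e2 : Nat.card (A →* Multiplicative P) = Nat.card ev.ker * Nat.card ev.range := by
      have h11 : Nat.card ((A →* Multiplicative P) ⧸ ev.ker) = Nat.card ev.range :=
        Nat.card_congr (QuotientGroup.quotientKerEquivRange ev).toEquiv
      rw [← h11, mul_comm]
      exact Subgroup.card_eq_card_quotient_mul_card_subgroup ev.ker
    rw [e2, e1]
    refine Nat.mul_le_mul_left _ ?_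
    have : Nat.card ev.range ≤ Nat.card (Multiplicative P) :=
      Nat.card_le_card_of_injective _ Subtype.val_injective
    exact this
  have hP : 1 < Nat.card P := Finite.one_lt_card
  have hU : 0 < Nat.card U := by
    have : Finite U := Subtype.finite
    have : Nonempty U := ⟨⟨1, rfl⟩⟩
    exact Nat.card_pos
  have key : Nat.card U * Nat.card P * Nat.card P ≤ Nat.card U * Nat.card P := by
    calc Nat.card U * Nat.card P * Nat.card P ≤ Nat.card (Crs θ P) * Nat.card P :=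
          Nat.mul_le_mul_right _ hle
      _ ≤ Nat.card P ^ (2 * g) := hup
      _ ≤ Nat.card (A →* Multiplicative P) := h2
      _ ≤ _ := hall
  have h12 : Nat.card U * Nat.card P * 1 < Nat.card U * Nat.card P * Nat.card P :=
    Nat.mul_lt_mul_of_pos_left hP (by positivity)
  omega

end root

end Pool.Agent.SuFI
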