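import Pool.Agent.Lib.MP_305fdd_al.Su.Dual.ZC
import Pool.Agent.Lib.MP_305fdd_al.Fr.Asm.Defs

/-!
# MP_305fdd_al, closed surface groups: homomorphisms to groups which embed into `SL_2(κ)`

`Fac π` : `π : Λ → Γ` is surjective, and all representations of `Λ` in `SL_2(κ)`, `κ` a finite field of
characteristic two, factor through `π`.  The same is true for homomorphisms to every group `Q` which
embeds into some `SL_2(κ)`, for example `Multiplicative (ZMod 2)`, `Multiplicative (ZMod ℓ)` for odd `ℓ`,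
and the affine groups `AF κˣ κ`.
-/

set_option autoImplicit false
set_option linter.unusedSectionVars false

namespace Pool.Agent.SuFI

open Matrix Pool.Agent.Lib.MP_305fdd_al Pool.Agent.MP_305fdd_al Pool.Agent.SurfCnt Pool.Agent.SuD
  Pool.Agent.FrAsm

/-- `π` is surjective and all representations over finite fields of characteristic two factor -/
structure Fac {Λ Γ : Type} [Group Λ] [Group Γ] (π : Λ →* Γ) : Prop where
  surj : Function.Surjective π
  fac : ∀ (κ : Type) [Field κ] [Finite κ] [Algebra (ZMod 2) κ]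
    (r : Λ →* SpecialLinearGroup (Fin 2) κ), ∃ r' : Γ →* SpecialLinearGroup (Fin 2) κ, r'.comp π = r

/-- `Q` embeds into `SL_2(κ)` for some finite field `κ` of characteristic two -/
def Emb (Q : Type) [Group Q] : Prop :=
  ∃ (κ : Type) (_ : Field κ) (_ : Finite κ) (_ : Algebra (ZMod 2) κ)
    (j : Q →* SpecialLinearGroup (Fin 2) κ), Function.Injective j

section fac

variable {Λ Γ : Type} [Group Λ] [Group Γ] {π : Λ →* Γ}

theorem Fac.hom (h : Fac π) {Q : Type} [Group Q] (hQ : Emb Q) (f : Λ →* Q) :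
    ∃ f' : Γ →* Q, f'.comp π = f := by
  obtain ⟨κ, _, _, _, j, hj⟩ := hQ
  obtain ⟨r, hr⟩ := h.fac κ (j.comp f)
  have hk : π.ker ≤ f.ker := by
    intro x hx
    rw [MonoidHom.mem_ker] at hx ⊢
    apply hj
    have h1 := DFunLike.congr_fun hr x
    rw [MonoidHom.comp_apply, hx, map_one, MonoidHom.comp_apply] at h1
    rw [map_one]
    exact h1.symm
  refine ⟨MonoidHom.liftOfSurjective π h.surj ⟨f, hk⟩, ?_⟩
  exact MonoidHom.liftOfRightInverse_comp _ _ _ _

/-- homomorphisms of `Γ` are the homomorphisms of `Λ` -/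
noncomputable def Fac.equiv (h : Fac π) {Q : Type} [Group Q] (hQ : Emb Q) :
    (Γ →* Q) ≃ (Λ →* Q) :=
  Equiv.ofBijective (fun f => f.comp π)
    ⟨fun _ _ he => (MonoidHom.cancel_right h.surj).1 he, fun f => h.hom hQ f⟩

theorem Fac.card (h : Fac π) {Q : Type} [Group Q] (hQ : Emb Q) :
    Nat.card (Γ →* Q) = Nat.card (Λ →* Q) := Nat.card_congr (h.equiv hQ)

/-- crossed homomorphisms of `Γ` are crossed homomorphisms of `Λ` if the affine group embeds -/
theorem Fac.card_Crs (h : Fac π) {Q P : Type} [Group Q] [AddCommGroup P] [DistribMulAction Q P]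
    (hA : Emb (AF Q P)) (θ : Γ →* Q) :
    Nat.card (Crs θ P) = Nat.card (Crs (θ.comp π) P) := by
  rw [Nat.card_congr (crsEquiv θ P), Nat.card_congr (crsEquiv (θ.comp π) P)]
  refine Nat.card_congr (Equiv.ofBijective
    (fun ψ : {ψ : Γ →* AF Q P // (AF.pr Q P).comp ψ = θ} =>
      (⟨ψ.1.comp π, by rw [← MonoidHom.comp_assoc, ψ.2]⟩ :
        {ψ : Λ →* AF Q P // (AF.pr Q P).comp ψ = θ.comp π})) ⟨?_, ?_⟩)
  · intro ψ ψ' he
    exact Subtype.ext ((MonoidHom.cancel_right h.surj).1 (congrArg Subtype.val he))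
  · rintro ⟨ψ, hψ⟩
    obtain ⟨ψ', rfl⟩ := h.hom hA ψ
    refine ⟨⟨ψ', ?_⟩, rfl⟩
    rw [← MonoidHom.comp_assoc] at hψ
    exact (MonoidHom.cancel_right h.surj).1 hψ

/-- in general there are at most as many crossed homomorphisms of `Γ` as of `Λ` -/
theorem card_Crs_le (hs : Function.Surjective π) {Q P : Type} [Group Q] [AddCommGroup P]
    [DistribMulAction Q P] (θ : Γ →* Q) [Finite (Crs (θ.comp π) P)] :
    Nat.card (Crs θ P) ≤ Nat.card (Crs (θ.comp π) P) := by
  refine Nat.card_le_card_of_injective (fun c : Crs θ P =>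
    (⟨fun x => c.1 (π x), fun x y => by
      change c.1 (π (x * y)) = _
      rw [map_mul]
      exact c.2 (π x) (π y)⟩ : Crs (θ.comp π) P)) ?_
  intro c c' he
  apply Subtype.ext
  funext y
  obtain ⟨x, rfl⟩ := hs y
  exact congrFun (congrArg Subtype.val he) x

end fac

/-! ## The square root and the affine group -/

section aff

variable (κ : Type) [Field κ] [Finite κ] [Algebra (ZMod 2) κ]

theorem card_even : 2 ∣ Nat.card κ := by
  have : CharP κ 2 := charP_of_injective_algebraMap (algebraMap (ZMod 2) κ).injective 2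
  have := Fintype.ofFinite κ
  obtain ⟨n, _, hn⟩ := FiniteField.card κ 2
  rw [Nat.card_eq_fintype_card, hn]
  exact dvd_pow_self 2 n.ne_zero

/-- the square root -/
noncomputable def srt : κˣ →* κˣ := powMonoidHom (Nat.card κ / 2)

theorem srt_sq (x : κˣ) : srt κ x * srt κ x = x := by
  change x ^ (Nat.card κ / 2) * x ^ (Nat.card κ / 2) = x
  rw [← pow_add, ← two_mul, Nat.mul_div_cancel' (card_even κ)]
  apply Units.ext
  rw [Units.val_pow_eq_pow_val]
  have := Fintype.ofFinite κ
  rw [Nat.card_eq_fintype_card]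
  exact FiniteField.pow_card _

/-- the matrix of an element of the affine group, `s` is the square root of the linear part -/
def mAF {κ : Type} [Field κ] (v : κ) (s : κˣ) : SpecialLinearGroup (Fin 2) κ :=
  ⟨!![(s : κ), v * ((s⁻¹ : κˣ) : κ); 0, ((s⁻¹ : κˣ) : κ)], by
    rw [Matrix.det_fin_two]
    simp⟩

theorem mAF_mul {κ : Type} [Field κ] (v w : κ) (s t : κˣ) :
    mAF (v + (s : κ) * s * w) (s * t) = mAF v s * mAF w t := by
  apply Subtype.ext
  have h2 : ((s⁻¹ : κˣ) : κ) * (s : κ) = 1 := Units.inv_mul _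
  change !![((s * t : κˣ) : κ), (v + (s : κ) * s * w) * (((s * t)⁻¹ : κˣ) : κ); 0,
      (((s * t)⁻¹ : κˣ) : κ)] = !![(s : κ), v * ((s⁻¹ : κˣ) : κ); 0, ((s⁻¹ : κˣ) : κ)] *
      !![(t : κ), w * ((t⁻¹ : κˣ) : κ); 0, ((t⁻¹ : κˣ) : κ)]
  rw [Matrix.mul_fin_two]
  ext i j
  fin_cases i <;> fin_cases j
  · simp
  · simp only [mul_inv, Units.val_mul, Fin.zero_eta, Fin.mk_one, Matrix.of_apply,
      Matrix.cons_val', Matrix.cons_val_zero, Matrix.cons_val_one, Matrix.cons_val_fin_one]
    linear_combination ((s : κ) * w * ((t⁻¹ : κˣ) : κ)) * h2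
  · simp
  · simp [mul_comm]

/-- the affine group in `SL_2` -/
noncomputable def jAF : AF κˣ κ →* SpecialLinearGroup (Fin 2) κ where
  toFun x := mAF x.v (srt κ x.q)
  map_one' := by
    apply Subtype.ext
    change !![((srt κ 1 : κˣ) : κ), 0 * (((srt κ 1)⁻¹ : κˣ) : κ); 0, (((srt κ 1)⁻¹ : κˣ) : κ)] = 1
    rw [map_one]
    ext i j
    fin_cases i <;> fin_cases j <;> simp
  map_mul' x y := by
    rw [← mAF_mul, ← Units.val_mul, srt_sq, AF.mul_v, AF.mul_q, map_mul]
    rfl

theorem jAF_inj : Function.Injective (jAF κ) := by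
  intro x y h
  have h0 : (srt κ x.q : κ) = srt κ y.q := congrFun (congrFun (congrArg Subtype.val h) 0) 0
  have h1 : x.v * ((srt κ x.q)⁻¹ : κˣ) = y.v * ((srt κ y.q)⁻¹ : κˣ) :=
    congrFun (congrFun (congrArg Subtype.val h) 0) 1
  have h2 : srt κ x.q = srt κ y.q := Units.ext h0
  have h3 : x.q = y.q := by rw [← srt_sq κ x.q, h2, srt_sq]
  refine AF.ext ?_ h3
  rw [h2] at h1
  exact mul_right_cancel₀ (Units.ne_zero _) h1

theorem emb_AF : Emb (AF κˣ κ) := ⟨κ, inferInstance, inferInstance, inferInstance, jAF κ, jAF_inj κ⟩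

end aff

theorem Emb.of_inj {Q R : Type} [Group Q] [Group R] (h : Emb R) (f : Q →* R)
    (hf : Function.Injective f) : Emb Q := by
  obtain ⟨κ, _, _, _, j, hj⟩ := h
  exact ⟨κ, inferInstance, inferInstance, inferInstance, j.comp f, hj.comp hf⟩

/-- `κˣ` embeds -/
theorem emb_units (κ : Type) [Field κ] [Finite κ] [Algebra (ZMod 2) κ] : Emb κˣ := by
  refine (emb_AF κ).of_inj
    { toFun := fun x => (⟨0, x⟩ : AF κˣ κ)
      map_one' := rfl
      map_mul' := fun x y => AF.ext (by simp) rfl } ?_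
  intro x y h
  exact congrArg AF.q h

/-- the additive group of `κ` embeds -/
theorem emb_add (κ : Type) [Field κ] [Finite κ] [Algebra (ZMod 2) κ] :
    Emb (Multiplicative κ) := by
  refine (emb_AF κ).of_inj
    { toFun := fun x => (⟨x.toAdd, 1⟩ : AF κˣ κ)
      map_one' := rfl
      map_mul' := fun x y => AF.ext (by simp) (by simp) } ?_
  intro x y h
  exact congrArg AF.v h

theorem emb_two : Emb (Multiplicative (ZMod 2)) := emb_add (ZMod 2)

/-- for every odd `m` there is a finite field of characteristic two with injective homomorphisms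
`ZMod l → κˣ` for all divisors `l` of `m` -/
theorem exists_units' (m : ℕ) (hm : Odd m) : ∃ (κ : Type) (_ : Field κ) (_ : Finite κ)
    (_ : Algebra (ZMod 2) κ), ∀ l : ℕ, l ∣ m →
      ∃ f : Multiplicative (ZMod l) →* κˣ, Function.Injective f := by
  have hm0 : 0 < m := hm.pos
  have hn : 0 < m.totient := Nat.totient_pos.2 hm0
  have hc : Nat.card (GaloisField 2 m.totient) = 2 ^ m.totient :=
    GaloisField.card 2 m.totient hn.ne'
  have hf : Finite (GaloisField 2 m.totient) := Nat.finite_of_card_ne_zero (by rw [hc]; positivity)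
  have hdvd : m ∣ Nat.card (GaloisField 2 m.totient)ˣ := by
    have := Fintype.ofFinite (GaloisField 2 m.totient)
    rw [Nat.card_units, hc]
    exact (Nat.modEq_iff_dvd' Nat.one_le_two_pow).1
      (Nat.ModEq.pow_totient (Nat.coprime_two_left.2 hm)).symm
  obtain ⟨x, hx⟩ := IsCyclic.exists_ofOrder_eq_natCard (α := (GaloisField 2 m.totient)ˣ)
  have hc0 : 0 < Nat.card (GaloisField 2 m.totient)ˣ := Nat.card_pos
  refine ⟨GaloisField 2 m.totient, inferInstance, hf, inferInstance, ?_⟩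
  intro l hl
  obtain ⟨c, hc'⟩ := hl.trans hdvd
  have hl0 : 0 < l := Nat.pos_of_dvd_of_pos hl hm0
  have hy : orderOf (x ^ c) = l := by
    have hcpos : c ≠ 0 := by
      rintro rfl
      rw [mul_zero] at hc'
      omega
    rw [orderOf_pow_of_dvd hcpos (by rw [hx, hc']; exact Dvd.intro_left _ rfl), hx, hc']
    exact Nat.mul_div_cancel _ (Nat.pos_of_ne_zero hcpos)
  have h1 : ∀ n : ℕ, (x ^ c) ^ (n % l) = (x ^ c) ^ n := fun n => by
    conv_rhs => rw [← pow_mod_orderOf, hy]
  refine ⟨{ toFun := fun a => (x ^ c) ^ (a.toAdd.val)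
            map_one' := by
              change (x ^ c) ^ (0 : ZMod l).val = 1
              rw [ZMod.val_zero, pow_zero]
            map_mul' := fun a b => by
              have : NeZero l := ⟨hl0.ne'⟩
              rw [← pow_add, toAdd_mul, ZMod.val_add, h1] }, ?_⟩
  intro a b hab
  have : NeZero l := ⟨hl0.ne'⟩
  change (x ^ c) ^ (a.toAdd.val) = (x ^ c) ^ (b.toAdd.val) at hab
  rw [pow_inj_mod, hy, Nat.mod_eq_of_lt (ZMod.val_lt _), Nat.mod_eq_of_lt (ZMod.val_lt _)] at hab
  exact ZMod.val_injective l hab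

theorem exists_units (m : ℕ) (hm : Odd m) : ∃ (κ : Type) (_ : Field κ) (_ : Finite κ)
    (_ : Algebra (ZMod 2) κ) (f : Multiplicative (ZMod m) →* κˣ), Function.Injective f := by
  obtain ⟨κ, _, _, _, h⟩ := exists_units' m hm
  obtain ⟨f, hf⟩ := h m dvd_rfl
  exact ⟨κ, inferInstance, inferInstance, inferInstance, f, hf⟩

theorem emb_odd (m : ℕ) (hm : Odd m) : Emb (Multiplicative (ZMod m)) := by
  obtain ⟨κ, _, _, _, f, hf⟩ := exists_units m hm
  exact (emb_units κ).of_inj f hf

theorem emb_prime (ℓ : ℕ) (hℓ : ℓ.Prime) : Emb (Multiplicative (ZMod ℓ)) := by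
  rcases hℓ.eq_two_or_odd' with rfl | h
  · exact emb_two
  · exact emb_odd ℓ h

end Pool.Agent.SuFI
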