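import Pool.Agent.Lib.MP_305fdd_al.Su.FI.Fac

/-!
# MP_305fdd_al, closed surface groups: counts of abelian and affine homomorphisms, free decompositions
-/

set_option autoImplicit false
set_option linter.unusedSectionVars false

namespace Pool.Agent.SuFI

open Matrix Pool.Agent.Lib.MP_305fdd_al Pool.Agent.MP_305fdd_al Pool.Agent.SurfCnt Pool.Agent.SuD
  Pool.Agent.FrAsm

section lam

variable {g : ℕ} {Λ : Type} [Group Λ] (Φ : NatBij Λ (SurfG g))

theorem IP_bot {Q P : Type} [Group Q] [AddCommGroup P] [DistribMulAction Q P] {H : Subgroup Q}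
    (hH : ∀ q ∈ H, q = 1) : IP P H = ⊥ := by
  rw [eq_bot_iff]
  unfold IP
  rw [AddSubgroup.closure_le]
  rintro x ⟨q, hq, p, rfl⟩
  rw [hH q hq, one_smul, sub_self]
  exact AddSubgroup.zero_mem _

/-- crossed homomorphisms with the trivial action are homomorphisms -/
def crsOne (L k : Type) [Group L] [Field k] :
    Crs (1 : L →* kˣ) k ≃ (L →* Multiplicative k) where
  toFun c := MonoidHom.mk' (fun x => Multiplicative.ofAdd (c.1 x)) (fun x y => by
    rw [c.2 x y, MonoidHom.one_apply, one_smul]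
    rfl)
  invFun f := ⟨fun x => (f x).toAdd, fun x y => by
    change (f (x * y)).toAdd = (f x).toAdd + (1 : kˣ) • (f y).toAdd
    rw [map_mul, one_smul]
    rfl⟩
  left_inv _ := rfl
  right_inv _ := rfl

include Φ

/-- the number of homomorphisms to the additive group of a finite field -/
theorem card_hom_add (k : Type) [Field k] [Finite k] :
    Nat.card (Λ →* Multiplicative k) = Nat.card k ^ (2 * g) := by
  have h := card_Crs Φ (1 : Λ →* kˣ) k
  rw [Nat.card_congr (crsOne Λ k), IP_bot (by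
    rintro _ ⟨x, rfl⟩
    rfl), AddSubgroup.card_bot, mul_one] at h
  exact h

/-- the number of crossed homomorphisms for a nontrivial character -/
theorem card_crs_ne (k : Type) [Field k] [Finite k] (χ : Λ →* kˣ) (hχ : χ ≠ 1) :
    Nat.card (Crs χ k) * Nat.card k = Nat.card k ^ (2 * g) := by
  have h := card_Crs Φ χ k
  have h1 : IP k χ.range = ⊤ := by
    rw [eq_top_iff]
    intro p _
    obtain ⟨x, hx⟩ : ∃ x, χ x ≠ 1 := by
      by_contra hcon
      push Not at hcon
      exact hχ (MonoidHom.ext hcon)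
    have hu : (1 : k) - (χ x : k) ≠ 0 := by
      intro h0
      apply hx
      apply Units.ext
      rw [Units.val_one]
      exact (sub_eq_zero.1 h0).symm
    have hxr : χ x ∈ χ.range := ⟨x, rfl⟩
    have h2 := sub_mem_IP (P := k) hxr (((1 : k) - (χ x : k))⁻¹ * p)
    have h3 : ((1 : k) - (χ x : k))⁻¹ * p - χ x • (((1 : k) - (χ x : k))⁻¹ * p) = p := by
      rw [Units.smul_def, smul_eq_mul]
      field_simp
    rwa [h3] at h2
  rw [h1, AddSubgroup.card_top] at h
  exact h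

end lam

section fd

variable {Γ : Type} [Group Γ] {A C : Subgroup Γ}

/-- homomorphisms of the factors to a group which embeds into `SL_2(R)` extend -/
theorem ext_of_emb (h : FD Γ A C) {Q R : Type} [Group Q] [CommRing R] [Algebra (ZMod 2) R]
    (j : Q →* SpecialLinearGroup (Fin 2) R) (hj : Function.Injective j) (a : A →* Q) (c : C →* Q) :
    ∃ r : Γ →* Q, (∀ x : A, r x = a x) ∧ ∀ x : C, r x = c x := by
  obtain ⟨r, hA, hC⟩ := h.ext R (j.comp a) (j.comp c)
  have hr : ∀ x, r x ∈ j.range := by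
    intro x
    have h1 : (⊤ : Subgroup Γ) ≤ j.range.comap r := by
      rw [← h.gen]
      refine sup_le ?_ ?_
      · intro y hy
        exact ⟨a ⟨y, hy⟩, (hA ⟨y, hy⟩).symm⟩
      · intro y hy
        exact ⟨c ⟨y, hy⟩, (hC ⟨y, hy⟩).symm⟩
    exact h1 (Subgroup.mem_top x)
  let e := (MonoidHom.ofInjective hj).symm
  have he : ∀ q : Q, e ⟨j q, ⟨q, rfl⟩⟩ = q := fun q => (MonoidHom.ofInjective hj).symm_apply_apply q
  refine ⟨e.toMonoidHom.comp (r.codRestrict j.range hr), ?_, ?_⟩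
  · intro x
    change e ⟨r x, hr x⟩ = a x
    rw [← he (a x)]
    congr 1
    exact Subtype.ext (hA x)
  · intro x
    change e ⟨r x, hr x⟩ = c x
    rw [← he (c x)]
    congr 1
    exact Subtype.ext (hC x)

theorem ext_of_Emb (h : FD Γ A C) {Q : Type} [Group Q] (hQ : Emb Q) (a : A →* Q) (c : C →* Q) :
    ∃ r : Γ →* Q, (∀ x : A, r x = a x) ∧ ∀ x : C, r x = c x := by
  obtain ⟨κ, _, _, _, j, hj⟩ := hQ
  exact ext_of_emb h j hj a c

theorem hom_eq (h : FD Γ A C) {Q : Type} [Group Q] {r r' : Γ →* Q} (hA : ∀ x : A, r x = r' x)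
    (hC : ∀ x : C, r x = r' x) : r = r' := by
  apply MonoidHom.ext
  intro x
  have h1 : (⊤ : Subgroup Γ) ≤ r.eqLocus r' := by
    rw [← h.gen]
    exact sup_le (fun y hy => hA ⟨y, hy⟩) (fun y hy => hC ⟨y, hy⟩)
  exact h1 (Subgroup.mem_top x)

/-- homomorphisms are pairs of homomorphisms of the factors -/
theorem card_hom_fd (h : FD Γ A C) {Q : Type} [Group Q] (hQ : Emb Q) :
    Nat.card (Γ →* Q) = Nat.card (A →* Q) * Nat.card (C →* Q) := by
  rw [← Nat.card_prod]
  refine Nat.card_congr (Equiv.ofBijective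
    (fun r : Γ →* Q => (r.comp A.subtype, r.comp C.subtype)) ⟨?_, ?_⟩)
  · intro r r' he
    rw [Prod.mk.injEq] at he
    exact hom_eq h (fun x => DFunLike.congr_fun he.1 x) (fun x => DFunLike.congr_fun he.2 x)
  · rintro ⟨a, c⟩
    obtain ⟨r, hA, hC⟩ := ext_of_Emb h hQ a c
    exact ⟨r, Prod.ext (MonoidHom.ext hA) (MonoidHom.ext hC)⟩

/-- crossed homomorphisms are pairs of crossed homomorphisms of the factors -/
theorem card_Crs_fd (h : FD Γ A C) {Q P : Type} [Group Q] [AddCommGroup P] [DistribMulAction Q P]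
    (hQ : Emb (AF Q P)) (θ : Γ →* Q) :
    Nat.card (Crs θ P) =
      Nat.card (Crs (θ.comp A.subtype) P) * Nat.card (Crs (θ.comp C.subtype) P) := by
  rw [Nat.card_congr (crsEquiv θ P), Nat.card_congr (crsEquiv (θ.comp A.subtype) P),
    Nat.card_congr (crsEquiv (θ.comp C.subtype) P), ← Nat.card_prod]
  refine Nat.card_congr (Equiv.ofBijective
    (fun ψ : {ψ : Γ →* AF Q P // (AF.pr Q P).comp ψ = θ} =>
      ((⟨ψ.1.comp A.subtype, by rw [← MonoidHom.comp_assoc, ψ.2]⟩ :
        {ψ : A →* AF Q P // (AF.pr Q P).comp ψ = θ.comp A.subtype}),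
      (⟨ψ.1.comp C.subtype, by rw [← MonoidHom.comp_assoc, ψ.2]⟩ :
        {ψ : C →* AF Q P // (AF.pr Q P).comp ψ = θ.comp C.subtype}))) ⟨?_, ?_⟩)
  · intro ψ ψ' he
    rw [Prod.mk.injEq] at he
    apply Subtype.ext
    exact hom_eq h (fun x => DFunLike.congr_fun (congrArg Subtype.val he.1) x)
      (fun x => DFunLike.congr_fun (congrArg Subtype.val he.2) x)
  · rintro ⟨⟨a, ha⟩, ⟨c, hc⟩⟩
    obtain ⟨r, hA, hC⟩ := ext_of_Emb h hQ a c
    refine ⟨⟨r, ?_⟩, ?_⟩
    · refine hom_eq h ?_ ?_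
      · intro x
        rw [MonoidHom.comp_apply, hA]
        exact DFunLike.congr_fun ha x
      · intro x
        rw [MonoidHom.comp_apply, hC]
        exact DFunLike.congr_fun hc x
    · exact Prod.ext (Subtype.ext (MonoidHom.ext hA)) (Subtype.ext (MonoidHom.ext hC))

theorem FD.symm' (h : FD Γ A C) : FD Γ C A where
  gen := by rw [sup_comm]; exact h.gen
  ext R _ _ c a := by
    obtain ⟨r, h1, h2⟩ := h.ext R a c
    exact ⟨r, h2, h1⟩

end fd

section main

variable {g : ℕ} {Λ Γ : Type} [Group Λ] [Group Γ] {π : Λ →* Γ}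

theorem card_hom_add' (Φ : NatBij Λ (SurfG g)) (hF : Fac π) (ℓ : ℕ) [hℓ : Fact ℓ.Prime] :
    Nat.card (Γ →* Multiplicative (ZMod ℓ)) = ℓ ^ (2 * g) := by
  rw [hF.card (emb_prime ℓ hℓ.out), card_hom_add Φ, Nat.card_zmod]

/-- NOT BOTH FACTORS have characters of odd order. -/
theorem not_both (Φ : NatBij Λ (SurfG g)) (hF : Fac π) {A C : Subgroup Γ} (h : FD Γ A C)
    (k : Type) [Field k] [Finite k] [Algebra (ZMod 2) k] (α : A →* kˣ) (hα : α ≠ 1) (γ : C →* kˣ)
    (hγ : γ ≠ 1) : False := by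
  have hE := emb_AF k
  have hsur : ∀ {f f' : Γ →* kˣ}, f.comp π = f'.comp π → f = f' := fun he =>
    (MonoidHom.cancel_right hF.surj).1 he
  obtain ⟨χ₁, h1A, h1C⟩ := ext_of_Emb h (emb_units k) α (1 : C →* kˣ)
  obtain ⟨χ₂, h2A, h2C⟩ := ext_of_Emb h (emb_units k) (1 : A →* kˣ) γ
  obtain ⟨χ₃, h3A, h3C⟩ := ext_of_Emb h (emb_units k) α γ
  have e1A : χ₁.comp A.subtype = α := MonoidHom.ext h1A
  have e1C : χ₁.comp C.subtype = 1 := MonoidHom.ext h1C
  have e2A : χ₂.comp A.subtype = 1 := MonoidHom.ext h2A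
  have e2C : χ₂.comp C.subtype = γ := MonoidHom.ext h2C
  have e3A : χ₃.comp A.subtype = α := MonoidHom.ext h3A
  have e3C : χ₃.comp C.subtype = γ := MonoidHom.ext h3C
  have hne : ∀ χ : Γ →* kˣ, χ ≠ 1 → Nat.card (Crs χ k) * Nat.card k = Nat.card k ^ (2 * g) := by
    intro χ hχ
    rw [hF.card_Crs hE χ]
    refine card_crs_ne Φ k _ ?_
    intro h0
    exact hχ (hsur h0)
  have n1 : χ₁ ≠ 1 := by
    rintro rfl
    exact hα e1A.symm
  have n2 : χ₂ ≠ 1 := by
    rintro rfl
    exact hγ e2C.symm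
  have n3 : χ₃ ≠ 1 := by
    rintro rfl
    exact hα e3A.symm
  have c1 := hne χ₁ n1
  have c2 := hne χ₂ n2
  have c3 := hne χ₃ n3
  have c0 : Nat.card (Crs (1 : Γ →* kˣ) k) = Nat.card k ^ (2 * g) := by
    rw [hF.card_Crs hE, MonoidHom.one_comp, Nat.card_congr (crsOne Λ k), card_hom_add Φ]
  rw [card_Crs_fd h hE, e1A, e1C] at c1
  rw [card_Crs_fd h hE, e2A, e2C] at c2
  rw [card_Crs_fd h hE, e3A, e3C] at c3
  rw [card_Crs_fd h hE, MonoidHom.one_comp, MonoidHom.one_comp] at c0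
  have hk : 1 < Nat.card k := Finite.one_lt_card
  set q := Nat.card k
  set N := q ^ (2 * g)
  have hN : 0 < N := by positivity
  set a1 := Nat.card (Crs (1 : A →* kˣ) k)
  set a2 := Nat.card (Crs α k)
  set b1 := Nat.card (Crs (1 : C →* kˣ) k)
  set b2 := Nat.card (Crs γ k)
  -- `a2 b1 q = N`, `a1 b2 q = N`, `a2 b2 q = N`, `a1 b1 = N`
  have e : N * N = N * N * q := by
    calc N * N = (a2 * b1 * q) * (a1 * b2 * q) := by rw [c1, c2]
      _ = (a1 * b1) * (a2 * b2 * q) * q := by ring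
      _ = N * N * q := by rw [c0, c3]
  have h2 : N * N * 1 < N * N * q := Nat.mul_lt_mul_of_pos_left hk (by positivity)
  rw [mul_one] at h2
  omega

end main

end Pool.Agent.SuFI
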